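import Pool.Agent.R537.TE.Stm

/-!
Project TE (helper537), piece AVG: the averaging argument.
-/

namespace Pool.Agent.R757.TE

open Pool.Agent.R537.TE
open Real

section avg

variable {ι : Type} [Fintype ι]

/-- the trigonometric factor -/
noncomputable def aa (t : ι → ℝ) (c : ι → ℤ) : ℝ := 1 - cos (2 * π * ∑ i, (c i : ℝ) * t i)

theorem aa_nonneg (t : ι → ℝ) (c : ι → ℤ) : 0 ≤ aa t c := by
  unfold aa; linarith [cos_le_one (2 * π * ∑ i, (c i : ℝ) * t i)]

theorem aa_le (t : ι → ℝ) (c : ι → ℤ) : aa t c ≤ 2 := by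
  unfold aa; linarith [neg_one_le_cos (2 * π * ∑ i, (c i : ℝ) * t i)]

theorem aa_neg (t : ι → ℝ) (c : ι → ℤ) : aa t (-c) = aa t c := by
  unfold aa
  have : 2 * π * ∑ i, (((-c) i : ℤ) : ℝ) * t i = -(2 * π * ∑ i, (c i : ℝ) * t i) := by
    rw [← mul_neg, ← Finset.sum_neg_distrib]
    congr 1
    refine Finset.sum_congr rfl fun i _ => ?_
    rw [Pi.neg_apply]
    push_cast
    ring
  rw [this, cos_neg]

theorem G_eq (z : (ι → ℤ) → ℝ) (t : ι → ℝ) : G z t = 2 * ∑' c, z c * aa t c := rfl

theorem sum_aa {w : (ι → ℤ) → ℝ} (hw : ∀ c, 0 ≤ w c) (hs : Summable w) (t : ι → ℝ) :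
    Summable fun c => w c * aa t c :=
  Summable.of_nonneg_of_le (fun c => mul_nonneg (hw c) (aa_nonneg t c))
    (fun c => mul_le_mul_of_nonneg_left (aa_le t c) (hw c)) (hs.mul_right 2)

theorem G_cont {w : (ι → ℤ) → ℝ} (hw : ∀ c, 0 ≤ w c) (hs : Summable w) :
    Continuous (G w) := by
  have h1 : Continuous fun t : ι → ℝ => ∑' c, w c * aa t c := by
    refine continuous_tsum (fun c => ?_) (hs.mul_right 2) (fun c t => ?_)
    · unfold aa
      fun_prop
    · rw [Real.norm_eq_abs, abs_of_nonneg (mul_nonneg (hw c) (aa_nonneg t c))]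
      exact mul_le_mul_of_nonneg_left (aa_le t c) (hw c)
  exact continuous_const.mul h1

theorem average {M : ℕ} (hM : 1 ≤ M) [DecidableEq ι] {a b : ℝ} (f : (ι → Fin M) → ℝ)
    (h : ∀ g, a ≤ f g ∧ f g ≤ b) :
    a ≤ 1 / (M : ℝ) ^ Fintype.card ι * ∑ g, f g ∧
      1 / (M : ℝ) ^ Fintype.card ι * ∑ g, f g ≤ b := by
  have hM0 : (0 : ℝ) < (M : ℝ) ^ Fintype.card ι := by
    have : (0 : ℝ) < M := by exact_mod_cast hM
    positivity
  have hc : (Fintype.card (ι → Fin M) : ℝ) = (M : ℝ) ^ Fintype.card ι := by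
    rw [Fintype.card_fun, Fintype.card_fin]
    push_cast
    rfl
  have h1 : ∑ _g : ι → Fin M, a ≤ ∑ g, f g := Finset.sum_le_sum fun g _ => (h g).1
  have h2 : ∑ g, f g ≤ ∑ _g : ι → Fin M, b := Finset.sum_le_sum fun g _ => (h g).2
  rw [Finset.sum_const, Finset.card_univ, nsmul_eq_mul, hc] at h1 h2
  constructor
  · rw [one_div, ← div_eq_inv_mul, le_div_iff₀ hM0]
    linarith
  · rw [one_div, ← div_eq_inv_mul, div_le_iff₀ hM0]
    linarith

end avg

theorem t_AVG (h1 : S_PARS) (h2 : S_COMP) : S_AVG := by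
  intro ι _ _ q K C hq hC hK hφ
  have step : ∀ j : ℕ, ∃ z : (ι → ℤ) → ℝ, (∀ c, 0 ≤ z c) ∧ (Function.support z).Finite ∧
      z 0 = 0 ∧ (∀ c, z c ≠ 0 → ∀ i, 2 * |c i| ≤ (((j + 1).factorial : ℕ) : ℤ)) ∧
      ∀ h : ι → ℤ, q (fun i => (h i : ℝ) / ((j + 1).factorial : ℝ)) ≤
          G z (fun i => (h i : ℝ) / ((j + 1).factorial : ℝ)) ∧
        G z (fun i => (h i : ℝ) / ((j + 1).factorial : ℝ)) ≤
          (C + 1 / ((j : ℝ) + 1)) * q (fun i => (h i : ℝ) / ((j + 1).factorial : ℝ)) := by
    intro j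
    obtain ⟨H, _, _, φ, hper, hb⟩ := hφ (C + 1 / ((j : ℝ) + 1)) (by
      have : (0 : ℝ) < 1 / ((j : ℝ) + 1) := by positivity
      linarith)
    obtain ⟨M, hM⟩ : ∃ M : ℕ, M = (j + 1).factorial := ⟨_, rfl⟩
    rw [← hM]
    have hMpos : 1 ≤ M := by rw [hM]; exact Nat.one_le_iff_ne_zero.2 (Nat.factorial_ne_zero _)
    have hM0 : (0 : ℝ) < M := by exact_mod_cast hMpos
    obtain ⟨s, z, hs, hz, hpars⟩ := h1 ι H M hMpos (fun g => φ (fun i => (g i : ℝ) / M)) (by
      intro g k
      have := hper (fun i => (g i : ℝ) / M) k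
      simp only
      rw [← this]
      congr 1
      funext i
      push_cast
      field_simp)
    refine ⟨fun c => if c ∈ s ∧ c ≠ 0 then z c else 0, ?_, ?_, ?_, ?_, ?_⟩
    · intro c
      simp only
      split_ifs
      · exact hz c
      · exact le_rfl
    · refine (s.finite_toSet).subset fun c hc => ?_
      rw [Function.mem_support] at hc
      by_contra h
      exact hc (if_neg fun h' => h h'.1)
    · simp
    · intro c hc i
      have : c ∈ s ∧ c ≠ 0 := by
        by_contra h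
        exact hc (if_neg h)
      exact hs c this.1 i
    · intro h
      have hG : G (fun c => if c ∈ s ∧ c ≠ 0 then z c else 0) (fun i => (h i : ℝ) / M) =
          ∑ c ∈ s, z c * (2 * (1 - cos (2 * π * (∑ i, (c i : ℝ) * (h i : ℝ)) / M))) := by
        rw [G_eq, tsum_eq_sum (s := s), Finset.mul_sum]
        · refine Finset.sum_congr rfl fun c hc => ?_
          have e1 : 2 * π * ∑ i, (c i : ℝ) * ((h i : ℝ) / M) =
              2 * π * (∑ i, (c i : ℝ) * (h i : ℝ)) / M := by
            rw [mul_div_assoc, Finset.sum_div]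
            congr 1
            refine Finset.sum_congr rfl fun i _ => ?_
            ring
          unfold aa
          rw [e1]
          by_cases h0 : c = 0
          · subst h0
            simp
          · rw [if_pos ⟨hc, h0⟩]
            ring
        · intro c hc
          rw [if_neg (fun h' => hc h'.1), zero_mul]
      rw [hG, hpars h]
      refine average hMpos _ fun g => ?_
      have h3 := hb (fun i => (((((g i : ℕ) : ℤ) + h i : ℤ)) : ℝ) / M)
        (fun i => ((((g i : ℕ) : ℤ)) : ℝ) / M)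
      have h4 : ((fun i => (((((g i : ℕ) : ℤ) + h i : ℤ)) : ℝ) / M) -
          (fun i => ((((g i : ℕ) : ℤ)) : ℝ) / M) : ι → ℝ) = fun i => (h i : ℝ) / M := by
        funext i
        simp only [Pi.sub_apply]
        push_cast
        ring
      rw [h4] at h3
      exact h3
  choose z hz hfin hz0 hbox hG using step
  have hmom : ∀ j i, ∑' c, z j c * (c i : ℝ) ^ 2 ≤ (C + 1) * |K| / 16 := by
    intro j i
    obtain ⟨M, hM⟩ : ∃ M : ℕ, M = (j + 1).factorial := ⟨_, rfl⟩
    have hMpos : 1 ≤ M := by rw [hM]; exact Nat.one_le_iff_ne_zero.2 (Nat.factorial_ne_zero _)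
    have hM0 : (0 : ℝ) < M := by exact_mod_cast hMpos
    have h3 := (hG j (Pi.single i 1)).2
    rw [← hM] at h3
    have h4 : (fun i' => (((Pi.single i 1 : ι → ℤ) i' : ℤ) : ℝ) / (M : ℝ)) =
        (Pi.single i (1 / (M : ℝ)) : ι → ℝ) := by
      funext i'
      by_cases h : i' = i
      · subst h; simp
      · simp [h]
    rw [h4] at h3
    have h5 := hK i (1 / (M : ℝ))
    have hj : (0 : ℝ) < 1 / ((j : ℝ) + 1) := by positivity
    have hj1 : 1 / ((j : ℝ) + 1) ≤ 1 := by
      rw [div_le_one (by positivity)]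
      have : (0 : ℝ) ≤ j := by positivity
      linarith
    have h6 : G (z j) (Pi.single i (1 / (M : ℝ))) ≤ (C + 1) * (|K| * (1 / (M : ℝ)) ^ 2) := by
      have e1 : K * (1 / (M : ℝ)) ^ 2 ≤ |K| * (1 / (M : ℝ)) ^ 2 :=
        mul_le_mul_of_nonneg_right (le_abs_self K) (by positivity)
      calc _ ≤ (C + 1 / ((j : ℝ) + 1)) * q (Pi.single i (1 / (M : ℝ))) := h3
        _ ≤ (C + 1 / ((j : ℝ) + 1)) * (|K| * (1 / (M : ℝ)) ^ 2) :=
          mul_le_mul_of_nonneg_left (h5.trans e1) (by linarith)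
        _ ≤ (C + 1) * (|K| * (1 / (M : ℝ)) ^ 2) :=
          mul_le_mul_of_nonneg_right (by linarith) (by positivity)
    have hsupp : ∀ f : (ι → ℤ) → ℝ, Summable fun c => z j c * f c := fun f =>
      summable_of_hasFiniteSupport ((hfin j).subset fun c hc => by
        rw [Function.mem_support] at hc ⊢
        exact left_ne_zero_of_mul hc)
    have h7 : ∑' c, z j c * (8 * (c i : ℝ) ^ 2 / (M : ℝ) ^ 2) ≤
        ∑' c, z j c * aa (Pi.single i (1 / (M : ℝ))) c := by
      refine (hsupp _).tsum_le_tsum (fun c => ?_) (hsupp _)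
      by_cases hc : z j c = 0
      · rw [hc, zero_mul, zero_mul]
      · refine mul_le_mul_of_nonneg_left ?_ (hz j c)
        have h8 := hbox j c hc i
        rw [← hM] at h8
        have h9 : ∑ i', (c i' : ℝ) * (Pi.single i (1 / (M : ℝ)) : ι → ℝ) i' = (c i : ℝ) / M := by
          rw [Finset.sum_eq_single i]
          · simp [div_eq_mul_inv]
          · intro b _ hb; simp [hb]
          · intro h; exact absurd (Finset.mem_univ _) h
        unfold aa
        rw [h9]
        have h10 : 2 * |(c i : ℝ)| ≤ M := by exact_mod_cast h8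
        have h11 : |2 * π * ((c i : ℝ) / M)| ≤ π := by
          rw [abs_mul, abs_of_pos (by positivity : (0 : ℝ) < 2 * π), abs_div, abs_of_pos hM0]
          have : |(c i : ℝ)| / M ≤ 1 / 2 := by
            rw [div_le_iff₀ hM0]; linarith
          have hpi := Real.pi_pos
          nlinarith
        have h12 := Real.cos_le_one_sub_mul_cos_sq h11
        have h13 : 2 / π ^ 2 * (2 * π * ((c i : ℝ) / M)) ^ 2 = 8 * (c i : ℝ) ^ 2 / (M : ℝ) ^ 2 := by
          have hpi := Real.pi_pos
          field_simp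
          ring
        rw [h13] at h12
        linarith
    rw [G_eq] at h6
    have h14 : ∑' c, z j c * (8 * (c i : ℝ) ^ 2 / (M : ℝ) ^ 2) =
        8 / (M : ℝ) ^ 2 * ∑' c, z j c * (c i : ℝ) ^ 2 := by
      rw [← tsum_mul_left]
      refine tsum_congr fun c => ?_
      ring
    rw [h14] at h7
    have h15 : 16 / (M : ℝ) ^ 2 * ∑' c, z j c * (c i : ℝ) ^ 2 ≤
        (C + 1) * (|K| * (1 / (M : ℝ)) ^ 2) := by
      have : 16 / (M : ℝ) ^ 2 * ∑' c, z j c * (c i : ℝ) ^ 2 =
        2 * (8 / (M : ℝ) ^ 2 * ∑' c, z j c * (c i : ℝ) ^ 2) := by ring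
      linarith
    have h16 : 16 / (M : ℝ) ^ 2 * ∑' c, z j c * (c i : ℝ) ^ 2 =
        (16 * ∑' c, z j c * (c i : ℝ) ^ 2) / (M : ℝ) ^ 2 := by ring
    have h17 : (C + 1) * (|K| * (1 / (M : ℝ)) ^ 2) = ((C + 1) * |K|) / (M : ℝ) ^ 2 := by ring
    rw [h16, h17, div_le_div_iff_of_pos_right (by positivity)] at h15
    linarith
  obtain ⟨w, hw0, hwz, hws, U, hUtop, hU⟩ := h2 ι z ((C + 1) * |K| / 16) hz hfin hz0 hmom
  have hrat : ∀ r : ι → ℚ, q (fun i => (r i : ℝ)) ≤ G w (fun i => (r i : ℝ)) ∧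
      G w (fun i => (r i : ℝ)) ≤ C * q (fun i => (r i : ℝ)) := by
    intro r
    have hev : ∀ᶠ j : ℕ in Filter.atTop, q (fun i => (r i : ℝ)) ≤ G (z j) (fun i => (r i : ℝ)) ∧
        G (z j) (fun i => (r i : ℝ)) ≤ (C + 1 / ((j : ℝ) + 1)) * q (fun i => (r i : ℝ)) := by
      filter_upwards [Filter.eventually_ge_atTop (∑ i, (r i).den)] with j hj
      have h3 := hG j (fun i => (r i).num * (((j + 1).factorial / (r i).den : ℕ) : ℤ))
      have h4 : (fun i => ((((r i).num * (((j + 1).factorial / (r i).den : ℕ) : ℤ)) : ℤ) : ℝ) /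
          ((j + 1).factorial : ℝ)) = fun i => (r i : ℝ) := by
        funext i
        have h5 : (r i).den ≤ j + 1 := by
          have := Finset.single_le_sum (f := fun i => (r i).den) (fun _ _ => Nat.zero_le _)
            (Finset.mem_univ i)
          omega
        have h6 : (r i).den ∣ (j + 1).factorial := Nat.dvd_factorial (r i).den_pos h5
        obtain ⟨e, he⟩ := h6
        have hd : (r i).den ≠ 0 := (r i).den_nz
        have hf0 : ((j + 1).factorial : ℝ) ≠ 0 := by exact_mod_cast Nat.factorial_ne_zero _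
        have h7 : (j + 1).factorial / (r i).den = e := by
          rw [he, Nat.mul_div_cancel_left _ (Nat.pos_of_ne_zero hd)]
        have hfe : ((j + 1).factorial : ℝ) = (r i).den * e := by exact_mod_cast he
        rw [h7, Rat.cast_def, hfe]
        rw [hfe] at hf0
        have hd0 : ((r i).den : ℝ) ≠ 0 := by exact_mod_cast hd
        have he0 : (e : ℝ) ≠ 0 := right_ne_zero_of_mul hf0
        push_cast
        field_simp
      rw [h4] at h3
      exact h3
    have hevU := hev.filter_mono hUtop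
    have hlim := hU (fun i => (r i : ℝ))
    constructor
    · exact ge_of_tendsto hlim (hevU.mono fun j hj => hj.1)
    · have h5 : Filter.Tendsto (fun j : ℕ => (C + 1 / ((j : ℝ) + 1)) * q (fun i => (r i : ℝ)))
          Filter.atTop (nhds ((C + 0) * q (fun i => (r i : ℝ)))) :=
        (tendsto_const_nhds.add tendsto_one_div_add_atTop_nhds_zero_nat).mul_const _
      rw [add_zero] at h5
      exact le_of_tendsto_of_tendsto hlim (h5.mono_left hUtop) (hevU.mono fun j hj => hj.2)
  have hall : ∀ t : ι → ℝ, q t ≤ G w t ∧ G w t ≤ C * q t := by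
    intro t
    have hd : DenseRange (fun (r : ι → ℚ) (i : ι) => (r i : ℝ)) :=
      DenseRange.piMap (fun _ => Rat.denseRange_cast)
    refine hd.induction_on (p := fun t => q t ≤ G w t ∧ G w t ≤ C * q t) t ?_ hrat
    exact (isClosed_le hq (G_cont hw0 hws)).inter
      (isClosed_le (G_cont hw0 hws) (hq.const_mul C))
  have hneg : Summable fun c : ι → ℤ => w (-c) := (Equiv.neg (ι → ℤ)).summable_iff.2 hws
  refine ⟨fun c => (w c + w (-c)) / 2, ?_, ?_, ?_, ?_⟩
  · intro c
    have := hw0 c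
    have := hw0 (-c)
    simp only
    linarith
  · exact (hws.add hneg).div_const 2
  · intro c
    simp only [neg_neg]
    ring
  · intro t
    have h3 : G (fun c => (w c + w (-c)) / 2) t = G w t := by
      rw [G_eq, G_eq]
      congr 1
      have h4 : ∑' c, w (-c) * aa t c = ∑' c, w c * aa t c := by
        have := (Equiv.neg (ι → ℤ)).tsum_eq (fun c => w c * aa t c)
        rw [← this]
        refine tsum_congr fun c => ?_
        rw [Equiv.neg_apply, aa_neg]
      have h5 : ∑' c, (w c + w (-c)) / 2 * aa t c =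
          (∑' c, w c * aa t c + ∑' c, w (-c) * aa t c) / 2 := by
        rw [← (sum_aa hw0 hws t).tsum_add (sum_aa (fun c => hw0 (-c)) hneg t), ← tsum_div_const]
        refine tsum_congr fun c => ?_
        ring
      rw [h5, h4]
      ring
    rw [h3]
    exact hall t

end Pool.Agent.R757.TE
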