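import Pool.Agent.R537.TE.Stm

/-!
Project TE (helper537), piece COMP: compactness of weights with bounded second moments.
-/

namespace Pool.Agent.R757.TE

open Pool.Agent.R537.TE
open Real

section comp

variable {ι : Type} [Fintype ι]

/-- squared length -/
noncomputable def pp (c : ι → ℤ) : ℝ := ∑ i, (c i : ℝ) ^ 2

theorem pp_nonneg (c : ι → ℤ) : 0 ≤ pp c := Finset.sum_nonneg fun _ _ => sq_nonneg _

theorem pp_ge_one {c : ι → ℤ} (h : c ≠ 0) : 1 ≤ pp c := by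
  obtain ⟨i, hi⟩ := Function.ne_iff.1 h
  have h1 : (1 : ℤ) ≤ (c i) ^ 2 := by
    have : 0 < (c i) ^ 2 := by
      have : c i ≠ 0 := hi
      positivity
    omega
  have h2 : (1 : ℝ) ≤ (c i : ℝ) ^ 2 := by exact_mod_cast h1
  exact h2.trans (Finset.single_le_sum (f := fun i => (c i : ℝ) ^ 2)
    (fun _ _ => sq_nonneg _) (Finset.mem_univ i))

/-- the finite box -/
noncomputable def box (ι : Type) [Fintype ι] [DecidableEq ι] (R : ℕ) : Finset (ι → ℤ) :=
  Fintype.piFinset fun _ => Finset.Icc (-(R : ℤ)) R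

theorem pp_box [DecidableEq ι] {R : ℕ} {c : ι → ℤ} (h : c ∉ box ι R) : (R : ℝ) ^ 2 ≤ pp c := by
  unfold box at h
  rw [Fintype.mem_piFinset] at h
  push Not at h
  obtain ⟨i, hi⟩ := h
  rw [Finset.mem_Icc] at hi
  have h1 : (R : ℤ) ≤ |c i| := by
    by_contra hc
    push Not at hc
    rw [abs_lt] at hc
    exact hi ⟨hc.1.le, hc.2.le⟩
  have h2 : (R : ℝ) ≤ |(c i : ℝ)| := by exact_mod_cast h1
  have h3 : (R : ℝ) ^ 2 ≤ (c i : ℝ) ^ 2 := by
    rw [← sq_abs (c i : ℝ)]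
    exact pow_le_pow_left₀ (by positivity) h2 2
  exact h3.trans (Finset.single_le_sum (f := fun i => (c i : ℝ) ^ 2)
    (fun _ _ => sq_nonneg _) (Finset.mem_univ i))

theorem G_box [DecidableEq ι] {v : (ι → ℤ) → ℝ} (hv : ∀ c, 0 ≤ v c) {B : ℝ}
    (hB : ∀ s : Finset (ι → ℤ), ∑ c ∈ s, v c * pp c ≤ B) (R : ℕ) (hR : 1 ≤ R)
    (t : ι → ℝ) :
    2 * ∑ c ∈ box ι R, v c * (1 - cos (2 * π * ∑ i, (c i : ℝ) * t i)) ≤ G v t ∧
    G v t ≤ 2 * ∑ c ∈ box ι R, v c * (1 - cos (2 * π * ∑ i, (c i : ℝ) * t i)) +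
      4 * B / (R : ℝ) ^ 2 := by
  obtain ⟨a, ha⟩ : ∃ a : (ι → ℤ) → ℝ, a = fun c => 1 - cos (2 * π * ∑ i, (c i : ℝ) * t i) :=
    ⟨_, rfl⟩
  have ha0 : ∀ c, 0 ≤ a c := by
    intro c; rw [ha]; simp only; linarith [cos_le_one (2 * π * ∑ i, (c i : ℝ) * t i)]
  have ha2 : ∀ c, a c ≤ 2 := by
    intro c; rw [ha]; simp only; linarith [neg_one_le_cos (2 * π * ∑ i, (c i : ℝ) * t i)]
  have hR0 : (0 : ℝ) < (R : ℝ) ^ 2 := by
    have : (0 : ℝ) < R := by exact_mod_cast hR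
    positivity
  have hub : ∀ s : Finset (ι → ℤ), ∑ c ∈ s, v c * a c ≤
      ∑ c ∈ box ι R, v c * a c + 2 * B / (R : ℝ) ^ 2 := by
    intro s
    have h1 : ∑ c ∈ s, v c * a c ≤ ∑ c ∈ box ι R ∪ (s \ box ι R), v c * a c :=
      Finset.sum_le_sum_of_subset_of_nonneg (by
        intro c hc
        by_cases h : c ∈ box ι R
        · exact Finset.mem_union_left _ h
        · exact Finset.mem_union_right _ (Finset.mem_sdiff.2 ⟨hc, h⟩))
        fun c _ _ => mul_nonneg (hv c) (ha0 c)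
    rw [Finset.sum_union Finset.disjoint_sdiff] at h1
    have h2 : ∑ c ∈ s \ box ι R, v c * a c ≤ 2 * B / (R : ℝ) ^ 2 := by
      rw [le_div_iff₀ hR0, Finset.sum_mul]
      have h3 : ∑ c ∈ s \ box ι R, v c * a c * (R : ℝ) ^ 2 ≤
          ∑ c ∈ s \ box ι R, 2 * (v c * pp c) := by
        refine Finset.sum_le_sum fun c hc => ?_
        have h4 := pp_box (Finset.mem_sdiff.1 hc).2
        have h5 : v c * (R : ℝ) ^ 2 ≤ v c * pp c := mul_le_mul_of_nonneg_left h4 (hv c)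
        have h6 : 0 ≤ v c * (R : ℝ) ^ 2 := mul_nonneg (hv c) hR0.le
        calc v c * a c * (R : ℝ) ^ 2 = a c * (v c * (R : ℝ) ^ 2) := by ring
          _ ≤ 2 * (v c * (R : ℝ) ^ 2) := mul_le_mul_of_nonneg_right (ha2 c) h6
          _ ≤ _ := by linarith
      refine h3.trans ?_
      rw [← Finset.mul_sum]
      linarith [hB (s \ box ι R)]
    linarith
  have hsum : Summable fun c => v c * a c :=
    summable_of_sum_le (fun c => mul_nonneg (hv c) (ha0 c)) hub
  have hG : G v t = 2 * ∑' c, v c * a c := by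
    unfold G
    rw [ha]
  rw [hG]
  have e : ∑ c ∈ box ι R, v c * (1 - cos (2 * π * ∑ i, (c i : ℝ) * t i)) =
      ∑ c ∈ box ι R, v c * a c := by rw [ha]
  rw [e]
  constructor
  · have := hsum.sum_le_tsum (box ι R) fun c _ => mul_nonneg (hv c) (ha0 c)
    linarith
  · have := Real.tsum_le_of_sum_le (fun c => mul_nonneg (hv c) (ha0 c)) hub
    have h7 : 4 * B / (R : ℝ) ^ 2 = 2 * (2 * B / (R : ℝ) ^ 2) := by ring
    linarith

end comp

theorem t_COMP : S_COMP := by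
  intro ι _ _ z B hz hfin hz0 hB
  obtain ⟨B1, hB1⟩ : ∃ B1 : ℝ, B1 = Fintype.card ι * max B 0 := ⟨_, rfl⟩
  have hB10 : 0 ≤ B1 := by rw [hB1]; positivity
  have hzB : ∀ (j : ℕ) (s : Finset (ι → ℤ)), ∑ c ∈ s, z j c * pp c ≤ B1 := by
    intro j s
    have h1 : ∑ c ∈ s, z j c * pp c = ∑ i, ∑ c ∈ s, z j c * (c i : ℝ) ^ 2 := by
      rw [Finset.sum_comm]
      refine Finset.sum_congr rfl fun c _ => ?_
      unfold pp
      rw [Finset.mul_sum]
    rw [h1, hB1]
    have h2 : ∀ i ∈ (Finset.univ : Finset ι), ∑ c ∈ s, z j c * (c i : ℝ) ^ 2 ≤ max B 0 := by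
      intro i _
      have h3 : Summable fun c => z j c * (c i : ℝ) ^ 2 :=
        summable_of_hasFiniteSupport ((hfin j).subset fun c hc => by
          rw [Function.mem_support] at hc ⊢
          exact left_ne_zero_of_mul hc)
      exact ((h3.sum_le_tsum s fun c _ => mul_nonneg (hz j c) (sq_nonneg _)).trans
        (hB j i)).trans (le_max_left _ _)
    refine (Finset.sum_le_sum h2).trans (le_of_eq ?_)
    rw [Finset.sum_const, nsmul_eq_mul, Finset.card_univ]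
  have hzIcc : ∀ c j, z j c ∈ Set.Icc 0 B1 := by
    intro c j
    refine ⟨hz j c, ?_⟩
    by_cases h : c = 0
    · rw [h, hz0]; exact hB10
    · have h1 := hzB j {c}
      rw [Finset.sum_singleton] at h1
      have h2 := pp_ge_one h
      have h3 : z j c * 1 ≤ z j c * pp c := mul_le_mul_of_nonneg_left h2 (hz j c)
      linarith
  obtain ⟨U, hU⟩ : ∃ U : Ultrafilter ℕ, U = Filter.hyperfilter ℕ := ⟨_, rfl⟩
  have hUtop : (U : Filter ℕ) ≤ Filter.atTop := by
    rw [hU]; exact Nat.hyperfilter_le_atTop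
  have hlim : ∀ c : ι → ℤ, ∃ x ∈ Set.Icc 0 B1, Filter.Tendsto (fun j => z j c) U (nhds x) := by
    intro c
    obtain ⟨x, hx, hx2⟩ := (isCompact_Icc (a := (0 : ℝ)) (b := B1)).ultrafilter_le_nhds
      (U.map fun j => z j c) (by
        rw [Filter.le_principal_iff]
        exact Filter.mem_map.2 (Filter.Eventually.of_forall fun j => hzIcc c j))
    exact ⟨x, hx, hx2⟩
  choose w hw hwlim using hlim
  have hw0 : ∀ c, 0 ≤ w c := fun c => (hw c).1
  have hwz : w 0 = 0 := by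
    have h1 := hwlim 0
    simp only [hz0] at h1
    exact tendsto_nhds_unique h1 tendsto_const_nhds
  have hwB : ∀ s : Finset (ι → ℤ), ∑ c ∈ s, w c * pp c ≤ B1 := by
    intro s
    have h1 : Filter.Tendsto (fun j => ∑ c ∈ s, z j c * pp c) U (nhds (∑ c ∈ s, w c * pp c)) :=
      tendsto_finsetSum _ fun c _ => (hwlim c).mul_const _
    exact le_of_tendsto' h1 fun j => hzB j s
  have hwsum : Summable w := by
    refine summable_of_sum_le hw0 (c := B1) fun s => ?_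
    refine (Finset.sum_le_sum fun c _ => ?_).trans (hwB s)
    by_cases h : c = 0
    · rw [h, hwz, zero_mul]
    · have h3 : w c * 1 ≤ w c * pp c := mul_le_mul_of_nonneg_left (pp_ge_one h) (hw0 c)
      linarith
  refine ⟨w, hw0, hwz, hwsum, U, hUtop, fun t => ?_⟩
  rw [Metric.tendsto_nhds]
  intro ε hε
  obtain ⟨R, hR⟩ := exists_nat_gt (max 1 (16 * B1 / ε))
  have hR1 : (1 : ℝ) < R := lt_of_le_of_lt (le_max_left _ _) hR
  have hR1' : 1 ≤ R := by exact_mod_cast hR1.le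
  have hR2 : 16 * B1 / ε < R := lt_of_le_of_lt (le_max_right _ _) hR
  have hR3 : 4 * B1 / (R : ℝ) ^ 2 ≤ ε / 4 := by
    rw [div_le_iff₀ (by positivity)]
    rw [div_lt_iff₀ hε] at hR2
    have : (R : ℝ) ≤ (R : ℝ) ^ 2 := by nlinarith
    nlinarith
  have hT : Filter.Tendsto (fun j => 2 * ∑ c ∈ box ι R, z j c *
      (1 - cos (2 * π * ∑ i, (c i : ℝ) * t i))) U (nhds (2 * ∑ c ∈ box ι R, w c *
      (1 - cos (2 * π * ∑ i, (c i : ℝ) * t i)))) :=
    (tendsto_finsetSum _ fun c _ => (hwlim c).mul_const _).const_mul 2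
  rw [Metric.tendsto_nhds] at hT
  filter_upwards [hT (ε / 4) (by positivity)] with j hj
  rw [Real.dist_eq, abs_lt] at hj ⊢
  have h1 := G_box (hz j) (hzB j) R hR1' t
  have h2 := G_box hw0 hwB R hR1' t
  constructor <;> linarith [hj.1, hj.2, h1.1, h1.2, h2.1, h2.2]

end Pool.Agent.R757.TE
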