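import Pool.Agent.R537.TE.Stm

/-!
Project TE (helper537), piece PARS: Parseval on a finite group, Hilbert space valued.
-/

namespace Pool.Agent.R757.TE

open Pool.Agent.R537.TE
open Real

section pars

variable {ι : Type} [Fintype ι] [DecidableEq ι] {M : ℕ} [NeZero M]

omit [Fintype ι] [NeZero M] in
theorem map_sum_eq (ψ : AddChar (ZMod M) ℂ) (s : Finset ι) (f : ι → ZMod M) :
    ψ (∑ i ∈ s, f i) = ∏ i ∈ s, ψ (f i) := by
  induction s using Finset.induction_on with
  | empty => simp
  | insert a s ha ih => rw [Finset.sum_insert ha, Finset.prod_insert ha, AddChar.map_add_eq_mul, ih]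

/-- the characters -/
noncomputable def ee (c a : ι → ZMod M) : ℂ := ZMod.stdAddChar (∑ i, c i * a i)

omit [DecidableEq ι] in
theorem ee_add (c a b : ι → ZMod M) : ee c (a + b) = ee c a * ee c b := by
  unfold ee
  rw [← AddChar.map_add_eq_mul, ← Finset.sum_add_distrib]
  congr 1
  refine Finset.sum_congr rfl fun i _ => ?_
  rw [Pi.add_apply]
  ring

omit [DecidableEq ι] in
theorem ee_conj (c a : ι → ZMod M) : (starRingEnd ℂ) (ee c a) = ee c (-a) := by
  unfold ee
  rw [← AddChar.map_neg_eq_conj, ← Finset.sum_neg_distrib]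
  congr 1
  refine Finset.sum_congr rfl fun i _ => ?_
  rw [Pi.neg_apply]
  ring

theorem ee_sum (a : ι → ZMod M) :
    ∑ c, ee c a = if a = 0 then ((M : ℂ) ^ Fintype.card ι) else 0 := by
  have h1 : ∀ c : ι → ZMod M, ee c a = ∏ i, (ZMod.stdAddChar (c i * a i) : ℂ) := by
    intro c
    unfold ee
    rw [map_sum_eq]
  simp only [h1]
  have h2 := Finset.prod_univ_sum (fun _ : ι => (Finset.univ : Finset (ZMod M)))
    (fun i x => (ZMod.stdAddChar (x * a i) : ℂ))
  rw [Fintype.piFinset_univ] at h2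
  rw [← h2]
  have h3 : ∀ i, ∑ x : ZMod M, (ZMod.stdAddChar (x * a i) : ℂ) = if a i = 0 then (M : ℂ) else 0 := by
    intro i
    rw [AddChar.sum_mulShift (a i) (ZMod.isPrimitive_stdAddChar M), ZMod.card]
    split_ifs <;> simp
  simp only [h3]
  by_cases h : a = 0
  · rw [if_pos h]
    subst h
    simp
  · rw [if_neg h]
    obtain ⟨i, hi⟩ := Function.ne_iff.1 h
    exact Finset.prod_eq_zero (Finset.mem_univ i) (if_neg hi)

variable {H : Type} [NormedAddCommGroup H] [InnerProductSpace ℂ H]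

theorem parseval (D : (ι → ZMod M) → H) :
    ∑ c, ‖∑ a, ee c (-a) • D a‖ ^ 2 = (M : ℝ) ^ Fintype.card ι * ∑ a, ‖D a‖ ^ 2 := by
  have h1 : ∀ c : ι → ZMod M, ((‖∑ a, ee c (-a) • D a‖ ^ 2 : ℝ) : ℂ) =
      ∑ a, ∑ b, ee c (a - b) * inner ℂ (D a) (D b) := by
    intro c
    have h2 := inner_self_eq_norm_sq_to_K (𝕜 := ℂ) (∑ a, ee c (-a) • D a)
    push_cast
    rw [← Complex.coe_algebraMap, ← h2, sum_inner]
    refine Finset.sum_congr rfl fun a _ => ?_
    rw [inner_sum]
    refine Finset.sum_congr rfl fun b _ => ?_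
    rw [inner_smul_left, inner_smul_right, ee_conj, neg_neg, sub_eq_add_neg, ee_add, mul_assoc]
  have h3 : ((∑ c, ‖∑ a, ee c (-a) • D a‖ ^ 2 : ℝ) : ℂ) =
      (((M : ℝ) ^ Fintype.card ι * ∑ a, ‖D a‖ ^ 2 : ℝ) : ℂ) := by
    rw [Complex.ofReal_sum, Finset.sum_congr rfl fun c _ => h1 c, Finset.sum_comm]
    rw [Complex.ofReal_mul, Complex.ofReal_sum, Finset.mul_sum]
    refine Finset.sum_congr rfl fun a _ => ?_
    rw [Finset.sum_comm]
    have h4 : ∀ b : ι → ZMod M, ∑ c, ee c (a - b) * inner ℂ (D a) (D b) =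
        if a = b then ((M : ℂ) ^ Fintype.card ι) * inner ℂ (D a) (D b) else 0 := by
      intro b
      rw [← Finset.sum_mul, ee_sum]
      by_cases h : a = b
      · rw [if_pos h, if_pos (sub_eq_zero.2 h)]
      · rw [if_neg h, if_neg (sub_ne_zero.2 h), zero_mul]
    rw [Finset.sum_congr rfl fun b _ => h4 b, Finset.sum_ite_eq, if_pos (Finset.mem_univ _),
      inner_self_eq_norm_sq_to_K]
    push_cast
    rfl
  exact_mod_cast h3

theorem shift (F : (ι → ZMod M) → H) (c h : ι → ZMod M) :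
    ∑ a, ee c (-a) • (F (a + h) - F a) = (ee c h - 1) • ∑ a, ee c (-a) • F a := by
  simp only [smul_sub, Finset.sum_sub_distrib, sub_smul, one_smul]
  congr 1
  rw [Finset.smul_sum]
  refine Fintype.sum_equiv (Equiv.addRight h) _ _ fun a => ?_
  rw [Equiv.coe_addRight, smul_smul, ← ee_add]
  have : h + -(a + h) = -a := by
    funext i
    simp
  rw [this]

omit [DecidableEq ι] in
theorem norm_ee_sub (c h : ι → ZMod M) : ‖ee c h - 1‖ ^ 2 = 2 * (1 - (ee c h).re) := by
  have h1 : ‖ee c h‖ = 1 := AddChar.norm_apply _ _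
  have h2 : ‖ee c h‖ ^ 2 = 1 := by rw [h1]; norm_num
  rw [Complex.sq_norm, Complex.normSq_apply] at h2 ⊢
  simp only [Complex.sub_re, Complex.one_re, Complex.sub_im, Complex.one_im, sub_zero]
  linarith

end pars

theorem t_PARS : S_PARS := by
  intro ι _ _ H _ _ M hM f hf
  have hMz : NeZero M := ⟨by omega⟩
  have hM0 : (M : ℝ) ≠ 0 := by exact_mod_cast hMz.out
  set F : (ι → ZMod M) → H := fun a => f (fun i => ((a i).val : ℤ)) with hF
  have hfF : ∀ x : ι → ℤ, f x = F (fun i => (x i : ZMod M)) := by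
    intro x
    rw [hF]
    simp only
    have h1 := hf (fun i => (((x i : ZMod M)).val : ℤ)) (fun i => x i / M)
    rw [← h1]
    congr 1
    funext i
    rw [ZMod.val_intCast]
    have := Int.emod_add_mul_ediv (x i) M
    linarith
  set emb : (ι → ZMod M) → (ι → ℤ) := fun c i => (c i).valMinAbs with hemb
  have hinj : Function.Injective emb := by
    intro c c' h
    funext i
    exact ZMod.injective_valMinAbs (congrFun h i)
  set Z : (ι → ℤ) → ℝ := fun c =>
    ‖∑ a, ee (fun i => (c i : ZMod M)) (-a) • F a‖ ^ 2 / ((M : ℝ) ^ Fintype.card ι) ^ 2 with hZ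
  refine ⟨Finset.univ.image emb, Z, ?_, ?_, ?_⟩
  · intro c hc i
    obtain ⟨c', _, rfl⟩ := Finset.mem_image.1 hc
    have h1 := ZMod.valMinAbs_mem_Ioc (c' i)
    rw [Set.mem_Ioc] at h1
    show 2 * |(c' i).valMinAbs| ≤ (M : ℤ)
    rcases abs_cases (c' i).valMinAbs with h2 | h2 <;> omega
  · intro c
    rw [hZ]
    positivity
  · intro h
    rw [Finset.sum_image (fun a _ b _ hab => hinj hab)]
    set h' : ι → ZMod M := fun i => (h i : ZMod M) with hh'
    have hcast : ∀ c : ι → ZMod M, (fun i => ((emb c i : ℤ) : ZMod M)) = c := by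
      intro c
      funext i
      exact ZMod.coe_valMinAbs _
    have hterm : ∀ c : ι → ZMod M, Z (emb c) *
        (2 * (1 - cos (2 * π * (∑ i, ((emb c i : ℤ) : ℝ) * (h i : ℝ)) / M))) =
        ‖∑ a, ee c (-a) • (F (a + h') - F a)‖ ^ 2 / ((M : ℝ) ^ Fintype.card ι) ^ 2 := by
      intro c
      rw [shift, norm_smul, mul_pow, norm_ee_sub]
      have hre : (ee c h').re = cos (2 * π * (∑ i, ((emb c i : ℤ) : ℝ) * (h i : ℝ)) / M) := by
        unfold ee
        have h1 : (∑ i, c i * h' i) = ((∑ i, emb c i * h i : ℤ) : ZMod M) := by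
          push_cast
          refine Finset.sum_congr rfl fun i _ => ?_
          rw [hh', hemb]
          simp only [ZMod.coe_valMinAbs]
        rw [h1, ZMod.stdAddChar_coe]
        have h2 : (2 * (π : ℂ) * Complex.I * ((∑ i, emb c i * h i : ℤ) : ℂ) / M : ℂ) =
            ((2 * π * (∑ i, ((emb c i : ℤ) : ℝ) * (h i : ℝ)) / M : ℝ) : ℂ) * Complex.I := by
          push_cast
          ring
        rw [h2, Complex.exp_ofReal_mul_I_re]
      rw [← hre, hZ]
      simp only
      rw [hcast c]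
      ring
    rw [Finset.sum_congr rfl fun c _ => hterm c, ← Finset.sum_div, parseval]
    have hM1 : (M : ℝ) ^ Fintype.card ι ≠ 0 := pow_ne_zero _ hM0
    rw [pow_two, mul_div_mul_left _ _ hM1, div_eq_inv_mul, one_div]
    congr 1
    have hbij : Function.Bijective
        (fun (g : ι → Fin M) (i : ι) => (((g i : ℕ) : ℤ) : ZMod M)) := by
      rw [Fintype.bijective_iff_injective_and_card]
      constructor
      · intro g g' hgg
        funext i
        have h1 := congrFun hgg i
        simp only at h1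
        have h2 : ((g i : ℕ) : ZMod M) = ((g' i : ℕ) : ZMod M) := by exact_mod_cast h1
        rw [ZMod.natCast_eq_natCast_iff'] at h2
        rw [Nat.mod_eq_of_lt (g i).2, Nat.mod_eq_of_lt (g' i).2] at h2
        exact Fin.ext h2
      · simp [ZMod.card]
    rw [← hbij.sum_comp (fun a => ‖F (a + h') - F a‖ ^ 2)]
    refine Finset.sum_congr rfl fun g _ => ?_
    rw [hfF (fun i => ((g i : ℕ) : ℤ) + h i), hfF (fun i => ((g i : ℕ) : ℤ))]
    congr 4
    funext i
    rw [Pi.add_apply, hh']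
    push_cast
    rfl

end Pool.Agent.R757.TE
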